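import Pool.Agent.R181.Eta2

/-!
# The functional `η` is nonnegative on discrete varieties

Proof idea: since singular vertices are not adjacent, all unit spheres of a `d`-variety are
`(d-1)`-graphs. Unit spheres of the Barycentric refinement have Euler characteristic `0` if `d` is
even. If `d` is odd they have Euler characteristic `2` for the faces with at least two vertices, and
the Dehn-Sommerville relation for the `(d-1)`-graph `S(x)` gives
`η(G) = ∑_x ∑_c 2 (1 / (|c| + 1) - (-1/2)^|c|)` (`c` runs through the nonempty complete subgraphs
of `S(x)`), where all terms are positive.
-/

set_option autoImplicit false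

namespace Pool.Agent.Results.MP_165839_co.EtaNonneg

open Finset Pool.Agent.R181.Eta
open scoped Classical

/-- For every `d ≥ 0` and every finite simple graph `G` which is a `d`-variety, `η(G) ≥ 0`.
(`IsVariety G (d + 1) univ` says that `G` is a `d`-variety.) -/
theorem result (V : Type) [Fintype V] (G : SimpleGraph V) (d : ℕ)
    (hG : IsVariety G (d + 1) univ) : 0 ≤ eta G := by
  unfold eta
  rw [← gauss_bonnet (refine G)]
  exact (main G d hG).1

end Pool.Agent.Results.MP_165839_co.EtaNonneg
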